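import Pool.Agent.Work.MP_c264fd_pr_h14.Interface

open MeasureTheory ProbabilityTheory Filter Topology
open scoped ENNReal NNReal

namespace Pool.BDep

/-- bounded functions of lists are integrable -/
theorem integrable_of_bddList {μ : Measure (List ℤ)} [IsFiniteMeasure μ] (G : List ℤ → ℝ) (C : ℝ)
    (h : ∀ l, |G l| ≤ C) : Integrable G μ :=
  Integrable.of_bound (Measurable.of_discrete.aestronglyMeasurable) C
    (ae_of_all _ (fun l => by simpa using h l))

/-- two bounded functions which agree outside `B` have close integrals -/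
theorem abs_integral_sub_le_of_eq_off {μ : Measure (List ℤ)} [IsProbabilityMeasure μ]
    (G G' : List ℤ → ℝ) (hG : ∀ l, |G l| ≤ 1) (hG' : ∀ l, |G' l| ≤ 1) (B : Set (List ℤ))
    (hB : ∀ l, l ∉ B → G l = G' l) :
    |∫ l, G l ∂μ - ∫ l, G' l ∂μ| ≤ 2 * (μ B).toReal := by
  have hi : Integrable G μ := integrable_of_bddList G 1 hG
  have hi' : Integrable G' μ := integrable_of_bddList G' 1 hG'
  rw [← integral_sub hi hi']
  have hBm : MeasurableSet B := trivial
  calc |∫ l, (G l - G' l) ∂μ| ≤ ∫ l, |G l - G' l| ∂μ := abs_integral_le_integral_abs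
    _ ≤ ∫ l, B.indicator (fun _ => (2 : ℝ)) l ∂μ := by
        apply integral_mono
        · exact (hi.sub hi').abs
        · exact (integrable_const _).indicator hBm
        · intro l
          by_cases hl : l ∈ B
          · simp only [Set.indicator_of_mem hl]
            calc |G l - G' l| ≤ |G l| + |G' l| := abs_sub _ _
              _ ≤ 2 := by linarith [hG l, hG' l]
          · simp only [Set.indicator_of_notMem hl, hB l hl, sub_self, abs_zero, le_refl]
    _ = 2 * (μ B).toReal := by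
        rw [integral_indicator hBm]
        simp [Measure.real, mul_comm]

/-- `run` restricted to a smaller box -/
theorem compare_half (hDet : Stmt_Det) (hProb : Stmt_RhoProb) (hFilter : Stmt_RhoFilter)
    (hEnds : Stmt_RhoEnds) (Λ Λ' D : Finset ℤ) (r : ℕ) (t : ℝ) (F : Config → ℝ) (h : Config)
    (ht : 0 ≤ t) (hF : LocalBdd D F) (hsub : Λ ⊆ Λ')
    (hD : ∀ x ∈ D, Finset.Icc (x - r) (x + r) ⊆ Λ) :
    |∫ l, F (run l h) ∂(rho Λ' t) - ∫ l, F (run l h) ∂(rho Λ t)|
      ≤ 2 * D.card * Real.exp t / 2 ^ r := by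
  haveI : IsProbabilityMeasure (rho Λ' t) := hProb Λ' t ht
  have e1 : ∫ l, F (run l h) ∂(rho Λ t)
      = ∫ l, F (run (l.filter (· ∈ Λ)) h) ∂(rho Λ' t) := by
    rw [← hFilter Λ Λ' t ht hsub]
    rw [integral_map (Measurable.of_discrete.aemeasurable)
      (Measurable.of_discrete.aestronglyMeasurable)]
  rw [e1]
  set B : Set (List ℤ) := ⋃ x ∈ D, {l | x + ((r + 1 : ℕ) : ℤ) ≤ gr x l ∨ gl x l ≤ x - ((r + 1 : ℕ) : ℤ)}
    with hBdef
  have hB : ∀ l, l ∉ B → F (run l h) = F (run (l.filter (· ∈ Λ)) h) := by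
    intro l hl
    apply hF.1
    intro x hx
    simp only [hBdef, Set.mem_iUnion, Set.mem_setOf_eq, not_exists, not_or, not_le] at hl
    obtain ⟨h1, h2⟩ := hl x hx
    have h3 := hDet.2.2.2.2.2.2.2.2.2.2.1 l h x (fun y => decide (y ∈ Λ)) (by
      intro y hy
      rw [Finset.mem_Icc] at hy
      simp only [decide_eq_true_eq]
      apply hD x hx
      rw [Finset.mem_Icc]
      push_cast at h1 h2
      constructor <;> linarith [hy.1, hy.2])
    exact h3.1.symm
  have key := abs_integral_sub_le_of_eq_off (μ := rho Λ' t) (fun l => F (run l h))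
    (fun l => F (run (l.filter (· ∈ Λ)) h)) (fun l => hF.2 _) (fun l => hF.2 _) B hB
  refine key.trans ?_
  have hb : rho Λ' t B ≤ ENNReal.ofReal (D.card * Real.exp t / 2 ^ r) := by
    calc rho Λ' t B ≤ ∑ x ∈ D, rho Λ' t
          {l | x + ((r + 1 : ℕ) : ℤ) ≤ gr x l ∨ gl x l ≤ x - ((r + 1 : ℕ) : ℤ)} :=
          measure_biUnion_finset_le _ _
      _ ≤ ∑ _x ∈ D, ENNReal.ofReal (2 * Real.exp t / 2 ^ (r + 1)) :=
          Finset.sum_le_sum (fun x _ => hEnds Λ' t x (r + 1) ht)
      _ = ENNReal.ofReal (D.card * Real.exp t / 2 ^ r) := by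
          rw [Finset.sum_const, nsmul_eq_mul, ← ENNReal.ofReal_natCast,
            ← ENNReal.ofReal_mul (by positivity)]
          congr 1
          rw [pow_succ]
          field_simp
  have hb2 : (rho Λ' t B).toReal ≤ D.card * Real.exp t / 2 ^ r :=
    ENNReal.toReal_le_of_le_ofReal (by positivity) hb
  calc 2 * (rho Λ' t B).toReal ≤ 2 * (D.card * Real.exp t / 2 ^ r) := by linarith
    _ = 2 * D.card * Real.exp t / 2 ^ r := by ring_nf

theorem stmt_Compare (hDet : Stmt_Det) (hProb : Stmt_RhoProb) (hFilter : Stmt_RhoFilter)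
    (hEnds : Stmt_RhoEnds) : Stmt_Compare := by
  intro Λ Λ' D r t F h ht hF h1 h2
  have hD : ∀ x ∈ D, Finset.Icc (x - (r : ℤ)) (x + r) ⊆ Λ ∩ Λ' := fun x hx =>
    Finset.subset_inter (h1 x hx) (h2 x hx)
  have k1 := compare_half hDet hProb hFilter hEnds (Λ ∩ Λ') Λ D r t F h ht hF
    Finset.inter_subset_left hD
  have k2 := compare_half hDet hProb hFilter hEnds (Λ ∩ Λ') Λ' D r t F h ht hF
    Finset.inter_subset_right hD
  rw [abs_le] at *
  have hp : (0 : ℝ) ≤ D.card * Real.exp t / 2 ^ r := by positivity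
  have e1 : 2 * (D.card : ℝ) * Real.exp t / 2 ^ r = 2 * (D.card * Real.exp t / 2 ^ r) := by
    ring_nf
  have e2 : 8 * (D.card : ℝ) * Real.exp t / 2 ^ r = 8 * (D.card * Real.exp t / 2 ^ r) := by
    ring_nf
  rw [e1] at k1 k2
  rw [e2]
  constructor <;> linarith [k1.1, k1.2, k2.1, k2.2]

end Pool.BDep
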