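import Pool.Agent.Work.MP_c264fd_pr_h14.Interface

namespace Pool.BDep

theorem log_ten_seven_gt : (3563 / 10000 : ℝ) < Real.log (10 / 7) := by
  have h := Real.abs_log_sub_add_sum_range_le (x := (3 / 10 : ℝ)) (by rw [abs_lt]; constructor <;> norm_num) 8
  have habs : |(3 / 10 : ℝ)| = 3 / 10 := abs_of_pos (by norm_num)
  rw [habs] at h
  have h2 := (abs_le.mp h).2
  have e1 : Real.log (10 / 7) = - Real.log (1 - 3 / 10) := by
    rw [← Real.log_inv]
    norm_num
  rw [e1]
  norm_num [Finset.sum_range_succ] at h2 ⊢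
  linarith

theorem stmt_Num : Stmt_Num := by
  unfold Stmt_Num
  have h := log_ten_seven_gt
  rw [div_lt_iff₀ (by linarith)]
  linarith

end Pool.BDep
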