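import Pool.Agent.Work.MP_c264fd_pr_helper48.Slope

open MeasureTheory ProbabilityTheory Filter Topology
open scoped ENNReal NNReal

namespace Pool.BDep

/-- local functions are measurable -/
theorem LocalBdd.measurable {D : Finset ℤ} {F : Config → ℝ} (hF : LocalBdd D F) :
    Measurable F := by
  classical
  let G : (D → ℤ) → ℝ := fun k => F (fun x => if hx : x ∈ D then k ⟨x, hx⟩ else 0)
  have hG : Measurable G := Measurable.of_discrete
  have e : F = G ∘ (fun h : Config => fun x : D => h x) := by
    funext h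
    apply hF.1
    intro x hx
    simp [hx]
  rw [e]
  refine hG.comp ?_
  rw [measurable_pi_iff]
  intro x
  exact measurable_pi_apply (x : ℤ)

theorem refl_refl (h : Config) : refl (refl h) = h := by
  funext x
  simp [refl]

theorem recenter_refl (h : Config) : recenter (refl h) = refl (recenter h) := by
  funext x
  simp [refl, recenter]

theorem LocalBdd.refl {D : Finset ℤ} {F : Config → ℝ} (hF : LocalBdd D F) :
    LocalBdd (D.image (fun y => -y)) (fun h => F (Pool.BDep.refl h)) := by
  refine ⟨fun h h' hh => hF.1 _ _ fun x hx => ?_, fun h => hF.2 _⟩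
  exact hh (-x) (Finset.mem_image_of_mem _ hx)

theorem image_neg_box (n : ℕ) : (box n).image (fun y => -y) = box n := by
  ext x
  simp only [box, Finset.mem_image, Finset.mem_Icc]
  constructor
  · rintro ⟨y, hy, rfl⟩
    constructor <;> linarith [hy.1, hy.2]
  · intro hx
    exact ⟨-x, ⟨by linarith [hx.2], by linarith [hx.1]⟩, by ring⟩

theorem run_refl (hDet : Stmt_Det) (l : List ℤ) (h : Config) :
    run l (refl h) = refl (run (l.map (fun y => -y)) h) := by
  funext x
  have h1 := hDet.2.2.2.2.2.2.1 l h (-x)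
  rw [neg_neg] at h1
  exact h1.symm

/-- the functional in the definition of box invariance is a measurable function -/
theorem measurable_inner (hProb : Stmt_RhoProb) {D : Finset ℤ} {F : Config → ℝ}
    (hF : LocalBdd D F) (n : ℕ) (s : ℝ) (hs : 0 ≤ s) :
    Measurable (fun h : Config => ∫ l, F (recenter (run l h)) ∂(rho (box n) s)) := by
  have := hProb (box n) s hs
  have h1 : Measurable (fun p : Config × List ℤ => F (recenter (run p.2 p.1))) :=
    measurable_run_prod (fun h l => F (recenter (run l h)))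
      fun l => hF.measurable.comp (measurable_recenter.comp (measurable_run l))
  exact (h1.stronglyMeasurable.integral_prod_right (ν := rho (box n) s)).measurable

theorem abs_inner_le (hProb : Stmt_RhoProb) {D : Finset ℤ} {F : Config → ℝ}
    (hF : LocalBdd D F) (n : ℕ) (s : ℝ) (hs : 0 ≤ s) (h : Config) :
    |∫ l, F (recenter (run l h)) ∂(rho (box n) s)| ≤ 1 := by
  have := hProb (box n) s hs
  have h1 := norm_integral_le_of_norm_le_const (μ := rho (box n) s)
    (f := fun l => F (recenter (run l h))) (C := 1) (ae_of_all _ fun l => by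
      simpa using hF.2 (recenter (run l h)))
  simpa using h1

theorem integrable_of_bddConf {μ : Measure Config} [IsFiniteMeasure μ] (G : Config → ℝ)
    (hG : Measurable G) (C : ℝ) (h : ∀ l, |G l| ≤ C) : Integrable G μ :=
  Integrable.of_bound hG.aestronglyMeasurable C (ae_of_all _ (fun l => by simpa using h l))

/-- box invariance is preserved by reflection -/
theorem BoxInvariant.map_refl (hDet : Stmt_Det) (hProb : Stmt_RhoProb) (hNeg : Stmt_RhoNeg)
    {μ : Measure Config} (hμ : BoxInvariant μ) : BoxInvariant (μ.map refl) := by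
  intro D F s hF hs
  have h1 := hμ _ _ s hF.refl hs
  rw [integral_map measurable_refl.aemeasurable hF.measurable.aestronglyMeasurable]
  refine h1.congr fun n => ?_
  rw [integral_map measurable_refl.aemeasurable
    (measurable_inner hProb hF n s hs).aestronglyMeasurable]
  refine integral_congr_ae (ae_of_all _ fun h => ?_)
  simp only
  have e : rho (box n) s = (rho (box n) s).map (List.map (fun y => -y)) := by
    rw [hNeg, image_neg_box]
  conv_lhs => rw [e]
  rw [integral_map Measurable.of_discrete.aemeasurable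
    Measurable.of_discrete.aestronglyMeasurable]
  refine integral_congr_ae (ae_of_all _ fun l => ?_)
  simp only
  rw [run_refl hDet, recenter_refl]

theorem half_add_half : ((2 : ℝ≥0∞)⁻¹) + (2 : ℝ≥0∞)⁻¹ = 1 := ENNReal.inv_two_add_inv_two

/-- half sum of two measures -/
noncomputable def mix {α : Type*} [MeasurableSpace α] (μ ν : Measure α) : Measure α :=
  (2 : ℝ≥0∞)⁻¹ • μ + (2 : ℝ≥0∞)⁻¹ • ν

theorem mix_prob {α : Type*} [MeasurableSpace α] (μ ν : Measure α) [IsProbabilityMeasure μ]
    [IsProbabilityMeasure ν] : IsProbabilityMeasure (mix μ ν) := by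
  constructor
  simp [mix, ENNReal.inv_two_add_inv_two]

theorem integral_mix {α : Type*} [MeasurableSpace α] (μ ν : Measure α) (f : α → ℝ)
    (hf : Integrable f μ) (hf' : Integrable f ν) :
    ∫ a, f a ∂(mix μ ν) = 2⁻¹ * ∫ a, f a ∂μ + 2⁻¹ * ∫ a, f a ∂ν := by
  rw [mix, integral_add_measure (hf.smul_measure (by simp)) (hf'.smul_measure (by simp)),
    integral_smul_measure, integral_smul_measure]
  simp

theorem BoxInvariant.mix (hProb : Stmt_RhoProb) {μ ν : Measure Config} [IsProbabilityMeasure μ]
    [IsProbabilityMeasure ν] (hμ : BoxInvariant μ) (hν : BoxInvariant ν) :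
    BoxInvariant (Pool.BDep.mix μ ν) := by
  intro D F s hF hs
  have i1 := fun n => integrable_of_bddConf (μ := μ) _ (measurable_inner hProb hF n s hs) 1
    (abs_inner_le hProb hF n s hs)
  have i2 := fun n => integrable_of_bddConf (μ := ν) _ (measurable_inner hProb hF n s hs) 1
    (abs_inner_le hProb hF n s hs)
  have h1 := (hμ D F s hF hs).const_mul (2 : ℝ)⁻¹
  have h2 := (hν D F s hF hs).const_mul (2 : ℝ)⁻¹
  rw [integral_mix μ ν F (integrable_of_bddConf F hF.measurable 1 hF.2)
    (integrable_of_bddConf F hF.measurable 1 hF.2)]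
  refine (h1.add h2).congr fun n => ?_
  rw [integral_mix μ ν _ (i1 n) (i2 n)]

theorem shift_iterate (n : ℕ) (h : Config) (x : ℤ) (h0 : h 0 = 0) :
    (shift^[n] h) x = h (x + n) - h n := by
  induction n generalizing x with
  | zero => simp [h0]
  | succ n ih =>
    rw [Function.iterate_succ_apply']
    simp only [shift]
    rw [ih, ih]
    have e1 : x + 1 + (n : ℤ) = x + ((n + 1 : ℕ) : ℤ) := by push_cast; ring
    have e2 : 1 + (n : ℤ) = ((n + 1 : ℕ) : ℤ) := by push_cast; ring
    rw [e1, e2]
    ring

theorem stmt_BoxMain (hDet : Stmt_Det) (hProb : Stmt_RhoProb) (hNeg : Stmt_RhoNeg)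
    (hGood : Stmt_GoodSeq) (hLimit : Stmt_Limit) (hSlope : Stmt_Slope)
    (hErg : Stmt_Ergodic) : Stmt_BoxMain := by
  obtain ⟨m, hm⟩ := hGood
  obtain ⟨μ, hμ⟩ := hLimit m hm
  have := hμ.prob
  have hsl := hSlope μ hμ
  obtain ⟨ν, hν, hνi, hνm, hconv⟩ := hErg μ hμ.prob hμ.zero hμ.shift hμ.integrable
  have hrp : IsProbabilityMeasure (μ.map refl) :=
    Measure.isProbabilityMeasure_map measurable_refl.aemeasurable
  have hnp : IsProbabilityMeasure (ν.map (fun y => -y)) :=
    Measure.isProbabilityMeasure_map measurable_neg.aemeasurable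
  refine ⟨mix μ (μ.map refl), mix_prob _ _, ?_,
    hμ.inv.mix hProb (hμ.inv.map_refl hDet hProb hNeg), mix ν (ν.map (fun y => -y)),
    mix_prob _ _, ?_, ?_⟩
  · -- value at the origin
    have hms : MeasurableSet {h : Config | h 0 = 0} :=
      (measurableSet_singleton (0 : ℤ)).preimage (measurable_pi_apply (0 : ℤ))
    have h2 : ∀ᵐ h ∂(μ.map refl), h 0 = 0 := by
      rw [ae_map_iff measurable_refl.aemeasurable hms]
      filter_upwards [hμ.zero] with h hh
      simpa [refl] using hh
    rw [mix, ae_add_measure_iff]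
    exact ⟨Measure.ae_smul_measure hμ.zero _, Measure.ae_smul_measure h2 _⟩
  · -- the limit law is not the Dirac mass
    intro hcon
    apply hsl
    rw [← hνm]
    have h0 : mix ν (ν.map (fun y => -y)) ({0}ᶜ : Set ℝ) = 0 := by
      rw [hcon, Measure.dirac_apply' _ (measurableSet_singleton _).compl]
      simp
    have h1 : ν ({0}ᶜ : Set ℝ) = 0 := by
      simp only [mix, Measure.add_apply, Measure.smul_apply, smul_eq_mul, add_eq_zero,
        mul_eq_zero] at h0
      rcases h0.1 with h | h
      · simp at h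
      · exact h
    have h2 : (fun y : ℝ => y) =ᵐ[ν] fun _ => (0 : ℝ) := by
      rw [Filter.EventuallyEq, ae_iff]
      exact h1
    rw [integral_congr_ae h2]
    simp
  · intro f
    -- the functional
    have hfm : ∀ x : ℤ, Measurable (fun h : Config => f ((h x : ℝ) / |(x : ℝ)| ^ (1 : ℝ))) :=
      fun x => f.continuous.measurable.comp ((measurable_coord x).div_const _)
    have hfi : ∀ (x : ℤ) (P : Measure Config) [IsProbabilityMeasure P],
        Integrable (fun h : Config => f ((h x : ℝ) / |(x : ℝ)| ^ (1 : ℝ))) P := by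
      intro x P _
      exact integrable_of_bddConf _ (hfm x) ‖f‖ fun h => by
        simpa using f.norm_coe_le_norm ((h x : ℝ) / |(x : ℝ)| ^ (1 : ℝ))
    let fn : BoundedContinuousFunction ℝ ℝ := f.compContinuous ⟨fun y => -y, continuous_neg⟩
    have hfn : ∀ y, fn y = f (-y) := fun y => rfl
    have hA := hconv f
    have hB := hconv fn
    have hlim : ∫ y, f y ∂(mix ν (ν.map (fun y => -y))) = 2⁻¹ * ∫ y, f y ∂ν + 2⁻¹ * ∫ y, fn y ∂ν := by
      rw [integral_mix]
      · rw [integral_map measurable_neg.aemeasurable f.continuous.measurable.aestronglyMeasurable]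
        rfl
      · exact f.integrable _
      · exact f.integrable _
    -- law of `h (-n)`
    have hneg : ∀ n : ℕ, ∫ h : Config, f ((h (-(n : ℤ)) : ℝ) / n) ∂μ
        = ∫ h : Config, fn ((h n : ℝ) / n) ∂μ := by
      intro n
      have hmp : MeasurePreserving (shift^[n]) μ μ :=
        MeasurePreserving.iterate ⟨measurable_shift, hμ.shift⟩ n
      have hms : Measurable (fun h : Config => f ((h (-(n : ℤ)) : ℝ) / n)) :=
        f.continuous.measurable.comp ((measurable_coord _).div_const _)
      calc ∫ h : Config, f ((h (-(n : ℤ)) : ℝ) / n) ∂μ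
          = ∫ h : Config, f ((h (-(n : ℤ)) : ℝ) / n) ∂(μ.map (shift^[n])) := by rw [hmp.map_eq]
        _ = ∫ h : Config, f (((shift^[n] h) (-(n : ℤ)) : ℝ) / n) ∂μ := by
            rw [integral_map hmp.measurable.aemeasurable hms.aestronglyMeasurable]
        _ = ∫ h : Config, fn ((h n : ℝ) / n) ∂μ := by
            refine integral_congr_ae ?_
            filter_upwards [hμ.zero] with h hh
            rw [shift_iterate n h _ hh, hfn]
            congr 1
            have e : -(n : ℤ) + n = 0 := by ring
            rw [e, hh]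
            push_cast
            ring
    have hval : ∀ x : ℤ, ∫ h : Config, f ((h x : ℝ) / |(x : ℝ)| ^ (1 : ℝ)) ∂(mix μ (μ.map refl))
        = 2⁻¹ * ∫ h : Config, f ((h x : ℝ) / |(x : ℝ)|) ∂μ
          + 2⁻¹ * ∫ h : Config, f ((h (-x) : ℝ) / |(x : ℝ)|) ∂μ := by
      intro x
      rw [integral_mix _ _ _ (hfi x _) (hfi x _),
        integral_map measurable_refl.aemeasurable (hfm x).aestronglyMeasurable]
      simp only [Real.rpow_one]
      rfl
    have hpos : ∀ n : ℕ, ∫ h : Config, f ((h (n : ℤ) : ℝ) / |((n : ℤ) : ℝ)| ^ (1 : ℝ))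
          ∂(mix μ (μ.map refl))
        = 2⁻¹ * ∫ h : Config, f ((h n : ℝ) / n) ∂μ + 2⁻¹ * ∫ h : Config, fn ((h n : ℝ) / n) ∂μ := by
      intro n
      rw [hval, ← hneg]
      simp
    have hposn : ∀ n : ℕ, ∫ h : Config, f ((h (-(n : ℤ)) : ℝ) / |((-(n : ℤ) : ℤ) : ℝ)| ^ (1 : ℝ))
          ∂(mix μ (μ.map refl))
        = 2⁻¹ * ∫ h : Config, f ((h n : ℝ) / n) ∂μ + 2⁻¹ * ∫ h : Config, fn ((h n : ℝ) / n) ∂μ := by
      intro n
      rw [hval, ← hneg, neg_neg]
      simp [add_comm]
    have hT : Tendsto (fun n : ℕ => 2⁻¹ * ∫ h : Config, f ((h n : ℝ) / n) ∂μ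
        + 2⁻¹ * ∫ h : Config, fn ((h n : ℝ) / n) ∂μ) atTop
        (𝓝 (∫ y, f y ∂(mix ν (ν.map (fun y => -y))))) := by
      rw [hlim]
      exact (hA.const_mul _).add (hB.const_mul _)
    rw [Int.cofinite_eq, tendsto_sup]
    have hcast : map (Nat.cast : ℕ → ℤ) atTop = atTop := Nat.map_cast_int_atTop
    constructor
    · rw [← Filter.map_neg_atTop, tendsto_map'_iff, ← hcast, tendsto_map'_iff]
      exact hT.congr fun n => (hposn n).symm
    · rw [← hcast, tendsto_map'_iff]
      exact hT.congr fun n => (hpos n).symm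

end Pool.BDep
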