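import Pool.Agent.Work.MP_c264fd_pr_h14.Interface

open MeasureTheory ProbabilityTheory Filter Topology
open scoped ENNReal NNReal

namespace Pool.BDep

/-! ### measurability of the dynamics -/

theorem measurable_ring (x : ℤ) : Measurable (ring x) := by
  rw [measurable_pi_iff]
  intro y
  by_cases hy : y = x
  · subst hy
    have : (fun h : Config => ring y h y)
        = fun h : Config => max (max (h (y - 1)) (h (y + 1))) (h y + 1) := by
      funext h
      simp [ring]
    rw [this]
    exact ((measurable_pi_apply (y - 1)).max (measurable_pi_apply (y + 1))).max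
      ((Measurable.of_discrete (f := fun k : ℤ => k + 1)).comp (measurable_pi_apply y))
  · have : (fun h : Config => ring x h y) = fun h : Config => h y := by
      funext h
      simp [ring, hy]
    rw [this]
    exact measurable_pi_apply y

theorem measurable_run (l : List ℤ) : Measurable (run l) := by
  induction l with
  | nil => exact measurable_id
  | cons x l ih => exact ih.comp (measurable_ring x)

theorem measurable_run_prod {α : Type*} [MeasurableSpace α] (f : Config → List ℤ → α)
    (hf : ∀ l, Measurable (fun h => f h l)) : Measurable (fun p : Config × List ℤ => f p.1 p.2) :=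
  measurable_from_prod_countable_left hf

theorem measurable_shift : Measurable shift := by
  rw [measurable_pi_iff]
  intro y
  exact (measurable_pi_apply (y + 1)).sub (measurable_pi_apply 1)

theorem measurable_refl : Measurable refl := by
  rw [measurable_pi_iff]
  intro y
  exact measurable_pi_apply (-y)

theorem measurable_recenter : Measurable recenter := by
  rw [measurable_pi_iff]
  intro y
  exact (measurable_pi_apply y).sub (measurable_pi_apply 0)

theorem measurable_coord (x : ℤ) : Measurable (fun h : Config => (h x : ℝ)) :=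
  (Measurable.of_discrete (f := fun k : ℤ => (k : ℝ))).comp (measurable_pi_apply x)

/-! ### the mean of every coordinate -/

theorem mean_coord {μ : Measure Config} [IsProbabilityMeasure μ]
    (hzero : ∀ᵐ h ∂μ, h 0 = 0) (hint : Integrable (fun h : Config => (h 1 : ℝ)) μ)
    (hshift : μ.map shift = μ) (x : ℤ) :
    Integrable (fun h : Config => (h x : ℝ)) μ ∧
      ∫ h, (h x : ℝ) ∂μ = x * ∫ h, (h 1 : ℝ) ∂μ := by
  have hmp : MeasurePreserving shift μ μ := ⟨measurable_shift, hshift⟩
  have step : ∀ y : ℤ, (Integrable (fun h : Config => (h y : ℝ)) μ ↔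
      Integrable (fun h : Config => (h (y + 1) : ℝ)) μ) := by
    intro y
    have e := hmp.integrable_comp (g := fun h : Config => (h y : ℝ))
      (measurable_coord y).aestronglyMeasurable
    have e2 : ((fun h : Config => (h y : ℝ)) ∘ shift)
        = fun h : Config => (h (y + 1) : ℝ) - (h 1 : ℝ) := by
      funext h
      simp [shift]
    rw [e2] at e
    rw [← e]
    constructor
    · intro h1
      have := h1.add hint
      refine this.congr (ae_of_all _ fun h => ?_)
      simp
    · intro h1
      exact h1.sub hint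
  have stepI : ∀ y : ℤ, Integrable (fun h : Config => (h y : ℝ)) μ →
      ∫ h, (h (y + 1) : ℝ) ∂μ = ∫ h, (h y : ℝ) ∂μ + ∫ h, (h 1 : ℝ) ∂μ := by
    intro y hy
    have h2 := (step y).1 hy
    have e : ∫ h, (h y : ℝ) ∂μ = ∫ h, ((h (y + 1) : ℝ) - (h 1 : ℝ)) ∂μ := by
      conv_lhs => rw [← hshift]
      rw [integral_map measurable_shift.aemeasurable (measurable_coord y).aestronglyMeasurable]
      refine integral_congr_ae (ae_of_all _ fun h => ?_)
      simp [shift]
    rw [e, integral_sub h2 hint]
    ring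
  induction x using Int.induction_on with
  | zero =>
    have h0 : (fun h : Config => ((h 0 : ℤ) : ℝ)) =ᵐ[μ] fun _ => (0 : ℝ) := by
      filter_upwards [hzero] with h hh
      simp [hh]
    refine ⟨(integrable_const (0 : ℝ)).congr h0.symm, ?_⟩
    rw [integral_congr_ae h0]
    simp
  | succ n ih =>
    refine ⟨(step _).1 ih.1, ?_⟩
    rw [stepI _ ih.1, ih.2]
    push_cast
    ring
  | pred n ih =>
    have e : (-(n : ℤ) - 1) + 1 = -(n : ℤ) := by ring
    have h1 : Integrable (fun h : Config => ((h (-(n : ℤ) - 1) : ℤ) : ℝ)) μ := by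
      rw [step, e]
      exact ih.1
    refine ⟨h1, ?_⟩
    have h2 := stepI _ h1
    rw [e, ih.2] at h2
    push_cast at h2 ⊢
    linarith

/-- the integral is at most the lower integral of the positive part -/
theorem ofReal_integral_le {α : Type*} [MeasurableSpace α] {μ : Measure α} (f : α → ℝ)
    (hf : Integrable f μ) : ENNReal.ofReal (∫ a, f a ∂μ) ≤ ∫⁻ a, ENNReal.ofReal (f a) ∂μ := by
  rw [integral_eq_lintegral_pos_part_sub_lintegral_neg_part hf]
  calc ENNReal.ofReal ((∫⁻ a, ENNReal.ofReal (f a) ∂μ).toReal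
          - (∫⁻ a, ENNReal.ofReal (-f a) ∂μ).toReal)
      ≤ ENNReal.ofReal ((∫⁻ a, ENNReal.ofReal (f a) ∂μ).toReal) := by
        apply ENNReal.ofReal_le_ofReal
        have : 0 ≤ (∫⁻ a, ENNReal.ofReal (-f a) ∂μ).toReal := ENNReal.toReal_nonneg
        linarith
    _ ≤ ∫⁻ a, ENNReal.ofReal (f a) ∂μ := ENNReal.ofReal_toReal_le

theorem stmt_Slope (hDet : Stmt_Det) (hProb : Stmt_RhoProb) (hEnds : Stmt_RhoEnds)
    (hLin : Stmt_RhoLin) (hLB : Stmt_LB) (hNum : Stmt_Num) : Stmt_Slope := by
  intro μ hμ hslope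
  have := hμ.prob
  have hDopt := hDet.2.2.2.2.2.2.2.2.2.2.2.2.2
  have hDends := hDet.2.2.2.2.2.2.2.1
  have hDgr := hDet.2.2.2.2.2.2.2.2.1
  have hcoord : ∀ x : ℤ, Integrable (fun h : Config => (h x : ℝ)) μ ∧
      ∫ h, (h x : ℝ) ∂μ = 0 := by
    intro x
    have h1 := mean_coord hμ.zero hμ.integrable hμ.shift x
    refine ⟨h1.1, ?_⟩
    rw [h1.2, hslope, mul_zero]
  -- lower bound for every list
  have hlist : ∀ l : List ℤ, ENNReal.ofReal ((run l 0 0 : ℤ) : ℝ)
      ≤ ∫⁻ h, ENNReal.ofReal ((run l h 0 - h (gr 0 l) : ℤ) : ℝ) ∂μ := by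
    intro l
    obtain ⟨y, -, hy⟩ := hDopt l 0
    have hi : Integrable (fun h : Config => (h y : ℝ) - (h (gr 0 l) : ℝ) + ((run l 0 0 : ℤ) : ℝ)) μ :=
      ((hcoord y).1.sub (hcoord _).1).add (integrable_const _)
    have h1 := ofReal_integral_le _ hi
    have e : ∫ h : Config, ((h y : ℝ) - (h (gr 0 l) : ℝ) + ((run l 0 0 : ℤ) : ℝ)) ∂μ
        = ((run l 0 0 : ℤ) : ℝ) := by
      have hs : Integrable (fun h : Config => (h y : ℝ) - (h (gr 0 l) : ℝ)) μ :=
        (hcoord y).1.sub (hcoord _).1
      rw [integral_add hs (integrable_const _),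
        integral_sub (hcoord y).1 (hcoord _).1, (hcoord y).2, (hcoord _).2]
      simp
    rw [e] at h1
    refine h1.trans (lintegral_mono fun h => ENNReal.ofReal_le_ofReal ?_)
    have h2 : ((h y + run l 0 0 : ℤ) : ℝ) ≤ ((run l h 0 : ℤ) : ℝ) := by exact_mod_cast hy h
    push_cast at h2 ⊢
    linarith
  -- consequence of the growth inequality
  set v : ℝ := 10389 / 10000 / Real.log (10 / 7) with hv
  have hgrow : ∀ n T : ℕ, ∫⁻ l, ENNReal.ofReal ((run l 0 0 : ℤ) : ℝ) ∂(rho (box n) T)
      + ∫⁻ l, ENNReal.ofReal (gr 0 l) ∂(rho (box n) T) ≤ ENNReal.ofReal (T * v) := by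
    intro n T
    have := hProb (box n) T (by positivity)
    have h1 := hμ.fatou n T
    have e : (T : ℝ) * (10389 / 10000) / Real.log (10 / 7) = T * v := by
      rw [hv, mul_div_assoc]
    rw [e] at h1
    refine le_trans (add_le_add ?_ le_rfl) h1
    rw [lintegral_lintegral_swap]
    · exact lintegral_mono fun l => hlist l
    · apply Measurable.aemeasurable
      refine measurable_run_prod
        (fun h l => ENNReal.ofReal ((run l h 0 - h (gr 0 l) : ℤ) : ℝ)) fun l => ?_
      apply ENNReal.measurable_ofReal.comp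
      apply (Measurable.of_discrete (f := fun k : ℤ => (k : ℝ))).comp
      exact ((measurable_pi_apply 0).comp (measurable_run l)).sub (measurable_pi_apply _)
  -- growth of the right end
  have hright : ∀ n T : ℕ, ENNReal.ofReal (1 * T) * rho (box n) T {l | gr 0 l ≤ n}
      ≤ ∫⁻ l, ENNReal.ofReal (gr 0 l) ∂(rho (box n) T) := by
    intro n T
    have hstep : ∀ (x : ℤ) (l : List ℤ), gr 0 l ≤ gr 0 (x :: l) := by
      intro x l
      simp only [gr]
      split_ifs <;> linarith
    apply hLin (box n) T 1 (fun l => ENNReal.ofReal (gr 0 l)) (fun l => gr 0 l ≤ n)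
      (by positivity) zero_le_one
    · intro x l h
      exact (hstep x l).trans h
    · intro l _
      rw [← nsmul_eq_mul, ← Finset.sum_const]
      refine Finset.sum_le_sum fun x _ => ENNReal.ofReal_le_ofReal ?_
      exact_mod_cast hstep x l
    · intro l _ hl
      have hmem : gr 0 l ∈ box n := by
        rw [box, Finset.mem_Icc]
        have := (hDends l 0).2.1
        constructor
        · linarith
        · exact hl
      rw [← Finset.sum_erase_add _ _ hmem]
      have e1 : ENNReal.ofReal (gr 0 (gr 0 l :: l)) = ENNReal.ofReal (gr 0 l) + ENNReal.ofReal 1 := by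
        rw [← ENNReal.ofReal_add (by exact_mod_cast (hDends l 0).2.1) zero_le_one]
        congr 1
        simp [gr]
      rw [e1, ← add_assoc]
      refine add_le_add ?_ le_rfl
      have e2 : ((box n).card : ℝ≥0∞) * ENNReal.ofReal (gr 0 l)
          = ∑ _x ∈ (box n).erase (gr 0 l), ENNReal.ofReal (gr 0 l) + ENNReal.ofReal (gr 0 l) := by
        rw [← nsmul_eq_mul, ← Finset.sum_const, ← Finset.sum_erase_add _ _ hmem]
      rw [e2]
      refine add_le_add ?_ le_rfl
      refine Finset.sum_le_sum fun x _ => ENNReal.ofReal_le_ofReal ?_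
      exact_mod_cast hstep x l
  obtain ⟨C, hC, hLB⟩ := hLB
  -- probability of the good event
  have hgood : ∀ n T : ℕ, 1 - 2 * Real.exp T / 2 ^ (n + 1)
      ≤ (rho (box n) T {l | -(n : ℤ) ≤ gl 0 l ∧ gr 0 l ≤ n}).toReal := by
    intro n T
    have := hProb (box n) T (by positivity)
    have h1 := hEnds (box n) T 0 (n + 1) (by positivity)
    have h2 : ({l : List ℤ | -(n : ℤ) ≤ gl 0 l ∧ gr 0 l ≤ n}ᶜ)
        ⊆ {l | (0 : ℤ) + ((n + 1 : ℕ) : ℤ) ≤ gr 0 l ∨ gl 0 l ≤ 0 - ((n + 1 : ℕ) : ℤ)} := by
      intro l hl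
      simp only [Set.mem_compl_iff, Set.mem_ofPred_eq, not_and_or, not_le] at hl ⊢
      push_cast
      rcases hl with hl | hl
      · right; omega
      · left; omega
    have h3 : (rho (box n) T {l | -(n : ℤ) ≤ gl 0 l ∧ gr 0 l ≤ n}ᶜ).toReal
        ≤ 2 * Real.exp T / 2 ^ (n + 1) :=
      ENNReal.toReal_le_of_le_ofReal (by positivity) ((measure_mono h2).trans h1)
    have h4 := prob_compl_eq_one_sub (μ := rho (box n) T)
      (s := {l : List ℤ | -(n : ℤ) ≤ gl 0 l ∧ gr 0 l ≤ n}) trivial
    rw [h4, ENNReal.toReal_sub_of_le prob_le_one ENNReal.one_ne_top, ENNReal.toReal_one] at h3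
    linarith
  -- the final inequality
  have hfin : ∀ n T : ℕ, (29174 / 10000 * T) * (1 - 2 * Real.exp T / 2 ^ (n + 1)) ≤ T * v + C := by
    intro n T
    have := hProb (box n) T (by positivity)
    set p := rho (box n) T {l | -(n : ℤ) ≤ gl 0 l ∧ gr 0 l ≤ n} with hp
    have hptop : p ≠ ⊤ := measure_ne_top _ _
    have h1 := hLB n T (by positivity)
    have h2 : ENNReal.ofReal (1 * T) * p ≤ ∫⁻ l, ENNReal.ofReal (gr 0 l) ∂(rho (box n) T) := by
      refine le_trans (mul_le_mul_right ?_ _) (hright n T)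
      exact measure_mono fun l hl => hl.2
    have h3 : ENNReal.ofReal (19174 / 10000 * T) * p + ENNReal.ofReal (1 * T) * p
        ≤ ENNReal.ofReal (T * v) + ENNReal.ofReal C := by
      calc _ ≤ (∫⁻ l, ENNReal.ofReal ((run l 0 0 : ℤ) : ℝ) ∂(rho (box n) T) + ENNReal.ofReal C)
            + ∫⁻ l, ENNReal.ofReal (gr 0 l) ∂(rho (box n) T) := add_le_add h1 h2
        _ = (∫⁻ l, ENNReal.ofReal ((run l 0 0 : ℤ) : ℝ) ∂(rho (box n) T)
            + ∫⁻ l, ENNReal.ofReal (gr 0 l) ∂(rho (box n) T)) + ENNReal.ofReal C := by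
              rw [add_right_comm]
        _ ≤ _ := add_le_add (hgrow n T) le_rfl
    have hvpos : 0 ≤ v := by
      rw [hv]
      have : 0 < Real.log (10 / 7) := Real.log_pos (by norm_num)
      positivity
    rw [← ENNReal.ofReal_add (by positivity) hC.le] at h3
    have h4 := ENNReal.toReal_mono ENNReal.ofReal_ne_top h3
    rw [ENNReal.toReal_ofReal (by positivity), ENNReal.toReal_add
      (ENNReal.mul_ne_top ENNReal.ofReal_ne_top hptop)
      (ENNReal.mul_ne_top ENNReal.ofReal_ne_top hptop), ENNReal.toReal_mul, ENNReal.toReal_mul,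
      ENNReal.toReal_ofReal (by positivity), ENNReal.toReal_ofReal (by positivity)] at h4
    have h5 := hgood n T
    have hT : (0 : ℝ) ≤ T := by positivity
    nlinarith [mul_le_mul_of_nonneg_left h5 (show (0 : ℝ) ≤ 29174 / 10000 * T by positivity)]
  have hfin2 : ∀ T : ℕ, (29174 / 10000 * T : ℝ) ≤ T * v + C := by
    intro T
    have hlim : Tendsto (fun n : ℕ => (29174 / 10000 * T : ℝ)
        * (1 - 2 * Real.exp T / 2 ^ (n + 1))) atTop (𝓝 ((29174 / 10000 * T : ℝ) * (1 - 0))) := by
      apply Tendsto.const_mul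
      apply Tendsto.const_sub
      apply Tendsto.const_div_atTop
      exact (tendsto_pow_atTop_atTop_of_one_lt (by norm_num : (1 : ℝ) < 2)).comp
        (tendsto_add_atTop_nat 1)
    have := le_of_tendsto' hlim fun n => hfin n T
    linarith
  unfold Stmt_Num at hNum
  rw [← hv] at hNum
  have hpos : 0 < 29174 / 10000 - v := by linarith
  obtain ⟨T, hT⟩ := exists_nat_gt (C / (29174 / 10000 - v))
  rw [div_lt_iff₀ hpos] at hT
  have := hfin2 T
  linarith

end Pool.BDep
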